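import Pool.Agent.H94.PM3

set_option autoImplicit false

namespace Pool.Agent.Results.MP_9d0111_an.Equal
open Pool.Agent.H94.PM

theorem result {G X : Type*} [Group G] [Countable G] [TopologicalSpace X] [CompactSpace X]
    [TopologicalSpace.MetrizableSpace X] [MulAction G X] [ContinuousConstSMul G X] (d : ℕ → ℕ)
    (σ : ∀ i, G → Equiv.Perm (Fin (d i))) (hσ : IsSofic d σ) (p : ℝ) (hp : 1 ≤ p) :
    mdimP X d σ p = mdimM X d σ :=
  main σ hσ.1 hp

end Pool.Agent.Results.MP_9d0111_an.Equal
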